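import Pool.Agent.Helper65.SN.Far

/-!
# Large values of Hecke-Maass forms away from short geodesics (MP_8fded1_nt)

Let `U` be a Hecke-Maass cusp form for `SL_2(Z)`, `z = x + iy` with `|z| ≤ R` and `y ≥ 1/R`, `N ≥ 1`.
There is a point `w = (a z + b) / d`, `a d ≤ 2^52 N^27`, with `|U z| ≤ 2^142 N^73 |U w|`, such that the
distance from `w` to EVERY geodesic `A |w'|² + B Re w' + C = 0` of an integral form of discriminant
`0 < B² - 4 A C ≤ N` is at least `1 / (2^80 R^2 N^35)` (closed geodesics for nonsquare discriminants,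
geodesics joining two cusps for squares; all their modular translates are among them), and such that
moreover no nonscalar integral matrix of determinant `≤ N` moves `w` by less than this.

With `N = T^η`: up to factors `T^(73 η)` all large values of `U` are seen at points at distance at least
`T^(-36 η)` from all geodesics of discriminant `≤ T^η`. So for the conjecture `|U z| ≤ C T^ε` on compact
sets one may discard these neighbourhoods; the bounds do not depend on `T`.

Proof. By the starting result `NoShortHeckeReturns` we may suppose that `z` has no short Hecke returns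
of determinant `≤ 2^12 N^8`. Let `p` be a prime, `N + 1 < p ≤ 2 N + 2`. If a point `v` without short
returns is close to the geodesic of a primitive form `Q` of discriminant `≤ N`, choose a class `b`
modulo `p` which is not a root of `Q`. The Hecke relation at `(v + b) / p` gives a point
`w = (v + β) / p^e`, `β ≡ b (mod p)`, `e = 1` or `2`, with a comparable value. If `w` is close to the
geodesic of `Q'`, then `v` is close to the geodesic of the pull-back `Q''` of `Q'`. The Jacobian of `Q`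
and `Q''` is a form with a root near `v`, so it gives a short Hecke return of `v`, unless it vanishes;
then `Q''` is a multiple of `Q`, which is impossible, because `b` is not a root of `Q`. If the eigenvalue
of `T_p` is larger than `p + 1` then one first moves from `z` to the neighbour with the largest value.
-/

set_option autoImplicit false
open MeasureTheory UpperHalfPlane

namespace Pool.Agent.Results.MP_8fded1_nt.AwayFromGeodesics

/-- `U` is an `L^2`-normalised Hecke-Maass cusp form for `SL_2(Z)` with Laplace eigenvalue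
`1/4 + T^2` (the clauses are those of the frozen statement of the problem). -/
def IsHeckeMaass (U : ℂ → ℂ) (T : ℝ) : Prop :=
  ContDiffOn ℝ 2 U {z : ℂ | 0 < z.im} ∧
  (∀ z : ℂ, 0 < z.im → U (z + 1) = U z ∧ U (-z⁻¹) = U z) ∧
  (∀ z : ℂ, 0 < z.im →
    -((z.im : ℂ)) ^ 2 *
      (deriv (deriv (fun t : ℝ => U (z + (t : ℂ)))) 0 +
        deriv (deriv (fun t : ℝ => U (z + (t : ℂ) * Complex.I))) 0)
      = (1 / 4 + (T : ℂ) ^ 2) * U z) ∧
  (∀ y : ℝ, 0 < y →
    intervalIntegral (fun x : ℝ => U ((x : ℂ) + (y : ℂ) * Complex.I)) 0 1 volume = 0) ∧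
  (∫ z in {z : ℂ | 0 < z.im ∧ |z.re| ≤ 1 / 2 ∧ 1 ≤ ‖z‖}, ‖U z‖ ^ 2 / z.im ^ 2) = 1 ∧
  (∀ n : ℕ, 1 ≤ n → ∃ c : ℂ, ∀ z : ℂ, 0 < z.im →
    ∑ d ∈ n.divisors, ∑ b ∈ Finset.range d,
        U ((((n / d : ℕ) : ℂ) * z + (b : ℂ)) / (d : ℂ)) = c * U z)

/-- `w` has hyperbolic distance at least `δ` from every point `w'` of every geodesic
`A |w'|² + B Re w' + C = 0` with integers `A`, `B`, `C` such that `0 < B² - 4 A C ≤ N`. -/
def FarFromGeodesics (N : ℕ) (δ : ℝ) (w : ℍ) : Prop :=
  ∀ A B C : ℤ, 0 < B ^ 2 - 4 * A * C → B ^ 2 - 4 * A * C ≤ N →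
    ∀ w' : ℍ, (A : ℝ) * (w'.re ^ 2 + w'.im ^ 2) + B * w'.re + C = 0 → δ ≤ dist w' w

/-- `w` has no Hecke return of determinant at most `N` at distance less than `δ`: for every integral
matrix `(A, B; C, D)` with `0 < AD - BC ≤ N` which is not scalar, the point
`w' = (A w + B) / (C w + D)` has hyperbolic distance at least `δ` from `w`. -/
def NoHeckeReturn (N : ℕ) (δ : ℝ) (w : ℍ) : Prop :=
  ∀ A B C D : ℤ, 0 < A * D - B * C → A * D - B * C ≤ N → ¬ (B = 0 ∧ C = 0 ∧ A = D) →
    ∀ w' : ℍ, (w' : ℂ) * (C * (w : ℂ) + D) = A * (w : ℂ) + B → δ ≤ dist w' w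

/-- **Large values away from short geodesics.** Let `U` be a Hecke-Maass cusp form, `R ≥ 1`, `|z| ≤ R`,
`Im z ≥ 1 / R` and `N ≥ 1`. There is a point `w = (a z + b) / d` with `a d ≤ 2^52 N^27` such that
`|U z| ≤ 2^142 N^73 |U w|` and such that for `δ = 1 / (2^80 R^2 N^35)` the point `w` has distance at
least `δ` from all geodesics of discriminant at most `N` and no Hecke return of determinant at most
`N` at distance less than `δ`. -/
theorem result {U : ℂ → ℂ} {T : ℝ} (hU : IsHeckeMaass U T) {R : ℝ} (hR : 1 ≤ R) {z : ℍ}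
    (hz : ‖(z : ℂ)‖ ≤ R) (hz' : 1 / R ≤ z.im) {N : ℕ} (hN : 1 ≤ N) :
    ∃ (w : ℍ) (a b d : ℕ), 0 < a ∧ 0 < d ∧ a * d ≤ 2 ^ 52 * N ^ 27 ∧
      (w : ℂ) = ((a : ℂ) * (z : ℂ) + (b : ℂ)) / (d : ℂ) ∧
      ‖U (z : ℂ)‖ ≤ 2 ^ 142 * (N : ℝ) ^ 73 * ‖U (w : ℂ)‖ ∧
      FarFromGeodesics N (1 / (2 ^ 80 * R ^ 2 * (N : ℝ) ^ 35)) w ∧
      NoHeckeReturn N (1 / (2 ^ 80 * R ^ 2 * (N : ℝ) ^ 35)) w := by
  obtain ⟨w, a, b, d, h1, h2, h3, h4, h5, h6, h7⟩ :=
    Pool.Agent.Helper65.SN.far ⟨fun z hz => (hU.2.1 z hz).1, hU.2.2.2.2.2⟩ hR hz hz' hN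
  exact ⟨w, a, b, d, h1, h2, h3, h4, h5, h7, h6⟩

end Pool.Agent.Results.MP_8fded1_nt.AwayFromGeodesics
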