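import Pool.Agent.Helper85.RC.Main
import Pool.Agent.Results.MP_8fded1_nt.EllipticPointIsHarmless

set_option autoImplicit false

/-!
# Circles, horocycles and geodesics with rational coefficients are harmless in the sup-norm problem (MP_8fded1_nt)

For an integer `Δ` and a real number `κ` let `Curve Δ κ` be the union of all curves

  `n |w| ^ 2 + k Re w + l = κ Im w`, `(n, k, l) ≠ 0` integers, `k ^ 2 - 4 n l = Δ`,

in the upper half-plane `H`. It is invariant under the modular group, closed, and a locally finite union of curves of constant
curvature: for `κ = 0` the closed geodesics and the geodesics between cusps, of discriminant `Δ > 0`, in particular (for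
`Δ = 1` and `Δ = 4`) the fixed lines of the reflections of the modular surface; for other `κ` the curves at a fixed distance
from them; for `Δ < 0` the hyperbolic circles of any given radius around the CM points of discriminant `Δ` (and the points
themselves); for `Δ = 0` the horocycles at all cusps, and every point of `H` is on such a horocycle.

Theorem: for every finite set of pairs `(Δ, κ)` and every compact set `Ω` in `H` there are a compact set `K` in `H`, disjoint
from all these curves (and so at a positive distance from them), and a constant `C`, such that for EVERY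
Hecke-Maass cusp form `U` and every `z` in `Ω` there is a `w` in `K` with `|U z| ≤ C |U w|`. So in the sup-norm problem, for
every exponent, a neighbourhood of all these curves may be removed: the bound `O(T ^ s)` on the compact sets which do not
meet them implies the bound `O(T ^ s)` on all compact sets.

Proof: Let `z = x + i y`. A linear functional of `ℝ` over `ℚ` gives integers `a`, `b`, `N ≥ 1` such that the
following holds. If `(z + m) / P`, `P` a power of a prime `p`, is on a curve of the family and `p` does not divide
`g(m) = a + 2 b m + N m ^ 2` then `P` divides `n`, and the form `(n, k, l)` composed with `(1, m; 0, P)` is `P` times a form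
`F` of the family; the curve of `F` contains `z` and `p` divides `F(m, -1)`. The number of the `F` of the family whose
curve contains `z` is finite. Thus there is a residue `b` such that `g(b) ≠ 0` and `F(b, -1) ≠ 0` for all these `F`, and for a
large prime `p` the points `(z + b) / p` and `(z + b + j p) / p ^ 2` are on no curve of the family. These are one Hecke
neighbour of `z` and all its other neighbours, and the Hecke relation there gives `U z`; the eigenvalues are bounded
independently of `U` (starting files `N889/SN`). The rest is compactness.
-/

namespace Pool.Agent.Results.MP_8fded1_nt.RationalCircles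

open Pool.Agent.Results.MP_8fded1_nt.EllipticPointIsHarmless (IsHeckeMaass)

/-- The union of all curves `n |w| ^ 2 + k Re w + l = κ Im w` in the upper half-plane, where `(n, k, l) ≠ (0, 0, 0)` are
integers with `k ^ 2 - 4 n l = Δ`. -/
def Curve (Δ : ℤ) (κ : ℝ) : Set ℂ :=
  {w : ℂ | 0 < w.im ∧ ∃ n k l : ℤ, ¬ (n = 0 ∧ k = 0 ∧ l = 0) ∧ k ^ 2 - 4 * n * l = Δ ∧
    n * (w.re ^ 2 + w.im ^ 2) + k * w.re + l = κ * w.im}

/-- **Theorem.** Let `D` be a finite set of pairs `(Δ, κ)`. For every compact subset `Ω` of the upper half-plane there are a
compact subset `K` of the upper half-plane which is disjoint from `Curve Δ κ` for all `(Δ, κ) ∈ D`, and `C > 0`, such that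
for every Hecke-Maass cusp form `U` and every `z ∈ Ω` there is a `w ∈ K` with `|U z| ≤ C |U w|`. -/
theorem result (D : Finset (ℤ × ℝ)) (Ω : Set ℂ) (hΩ : IsCompact Ω) (hΩ' : Ω ⊆ {z : ℂ | 0 < z.im}) :
    ∃ K : Set ℂ, IsCompact K ∧ K ⊆ {z : ℂ | 0 < z.im} ∧ (∀ d ∈ D, Disjoint K (Curve d.1 d.2)) ∧
      ∃ C : ℝ, 0 < C ∧ ∀ (U : ℂ → ℂ) (T : ℝ), IsHeckeMaass U T → ∀ z ∈ Ω, ∃ w ∈ K, ‖U z‖ ≤ C * ‖U w‖ := by
  obtain ⟨K, h1, h2, C, hC, h3⟩ := Pool.Agent.Helper85.RC.main D hΩ hΩ'
  refine ⟨K, h1, fun w hw => (h2 hw).1, fun d hd => ?_, C, hC, fun U T hU z hz => h3 U (Pool.Agent.N889.SN.isPer hU) z hz⟩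
  rw [Set.disjoint_left]
  intro w hw hc
  exact (h2 hw).2 d hd hc.2

end Pool.Agent.Results.MP_8fded1_nt.RationalCircles
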