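import Pool.Agent.Helper65.SN.Many

/-!
# Every large value of a Hecke-Maass form has many Hecke-unrelated companions (MP_8fded1_nt)

Let `U` be a Hecke-Maass cusp form for `SL_2(Z)`, `z = x + iy` with `|z| ≤ R` and `y ≥ 1/R`, `k ≥ 1`.
There are `k` points `w_i = (a_i z + b_i) / d_i`, `a_i d_i ≤ 2^31 k^24`, with
`|U z| ≤ 2^87 k^64 |U (w_i)|` for all `i`, such that for all `i`, `j` no integral matrix of determinant
at most `k` (nonscalar if `i = j`) maps `w_i` to a point at distance less than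
`δ = 1 / (2^39 R^2 k^28)` from `w_j`. In particular the images of the `w_i` in the modular curve have
pairwise distances `≥ δ`.

With `k = T^η`: the points at which `|U|` has at least `T^(-65 η)` times its largest value on a compact
set are not contained in any `T^η` discs of radius `T^(-29 η)` modulo `SL_2(Z)`, wherever these discs
are, nor in the images of one such disc under the Hecke correspondences of order `≤ T^η`.

Proof. By the starting result `NoShortHeckeReturns` we may suppose that `z` has no short Hecke returns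
of determinant `≤ 2^6 k^7`. Let `p` be a prime, `k < p ≤ 2 k`. For every class `b` modulo `p` the Hecke
relation at `(v + b) / p` gives a point `w_b = (v + β) / p^e`, `β ≡ b (mod p)`, `e = 1` or `2`, with
`|U v| ≤ (|c| + p) |U (w_b)|`, `c` the eigenvalue of `T_p`; here `v = z`, or the neighbour of `z` with the
largest value if `|c| > p + 1`, so that nothing is lost for large `c`. A matrix of determinant `≤ k`
which almost maps `w_b` to `w_b'` gives a return of `v`; it is not scalar because the points lie in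
different directions on the tree of `p`.
-/

set_option autoImplicit false
open MeasureTheory UpperHalfPlane

namespace Pool.Agent.Results.MP_8fded1_nt.SeparatedLargeValues

/-- `U` is an `L^2`-normalised Hecke-Maass cusp form for `SL_2(Z)` with Laplace eigenvalue
`1/4 + T^2` (the clauses are those of the frozen statement of the problem). -/
def IsHeckeMaass (U : ℂ → ℂ) (T : ℝ) : Prop :=
  ContDiffOn ℝ 2 U {z : ℂ | 0 < z.im} ∧
  (∀ z : ℂ, 0 < z.im → U (z + 1) = U z ∧ U (-z⁻¹) = U z) ∧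
  (∀ z : ℂ, 0 < z.im →
    -((z.im : ℂ)) ^ 2 *
      (deriv (deriv (fun t : ℝ => U (z + (t : ℂ)))) 0 +
        deriv (deriv (fun t : ℝ => U (z + (t : ℂ) * Complex.I))) 0)
      = (1 / 4 + (T : ℂ) ^ 2) * U z) ∧
  (∀ y : ℝ, 0 < y →
    intervalIntegral (fun x : ℝ => U ((x : ℂ) + (y : ℂ) * Complex.I)) 0 1 volume = 0) ∧
  (∫ z in {z : ℂ | 0 < z.im ∧ |z.re| ≤ 1 / 2 ∧ 1 ≤ ‖z‖}, ‖U z‖ ^ 2 / z.im ^ 2) = 1 ∧
  (∀ n : ℕ, 1 ≤ n → ∃ c : ℂ, ∀ z : ℂ, 0 < z.im →
    ∑ d ∈ n.divisors, ∑ b ∈ Finset.range d,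
        U ((((n / d : ℕ) : ℂ) * z + (b : ℂ)) / (d : ℂ)) = c * U z)

/-- For all `i`, `j` and every integral matrix `(A, B; C, D)` with `0 < AD - BC ≤ k`, which is not
scalar if `i = j`, the point `w' = (A w_i + B) / (C w_i + D)` has hyperbolic distance at least `δ`
from `w_j`. -/
def HeckeSeparated {k : ℕ} (δ : ℝ) (w : Fin k → ℍ) : Prop :=
  ∀ (i j : Fin k) (A B C D : ℤ), 0 < A * D - B * C → A * D - B * C ≤ k →
    (i ≠ j ∨ ¬ (B = 0 ∧ C = 0 ∧ A = D)) →
    ∀ w' : ℍ, (w' : ℂ) * (C * (w i : ℂ) + D) = A * (w i : ℂ) + B → δ ≤ dist w' (w j)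

/-- **Separated large values.** Let `U` be a Hecke-Maass cusp form, `R ≥ 1`, `|z| ≤ R`, `Im z ≥ 1 / R`
and `k ≥ 1`. There are `k` points `w_i = (a z + b) / d` with `a d ≤ 2^31 k^24` (`a`, `b`, `d` depend on
`i`) and `|U z| ≤ 2^87 k^64 |U (w_i)|` which are separated by `1 / (2^39 R^2 k^28)`, also after applying
integral matrices of determinant at most `k`. -/
theorem result {U : ℂ → ℂ} {T : ℝ} (hU : IsHeckeMaass U T) {R : ℝ} (hR : 1 ≤ R) {z : ℍ}
    (hz : ‖(z : ℂ)‖ ≤ R) (hz' : 1 / R ≤ z.im) {k : ℕ} (hk : 1 ≤ k) :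
    ∃ w : Fin k → ℍ,
      (∀ i, ∃ a b d : ℕ, 0 < a ∧ 0 < d ∧ a * d ≤ 2 ^ 31 * k ^ 24 ∧
        (w i : ℂ) = ((a : ℂ) * (z : ℂ) + (b : ℂ)) / (d : ℂ)) ∧
      (∀ i, ‖U (z : ℂ)‖ ≤ 2 ^ 87 * (k : ℝ) ^ 64 * ‖U (w i : ℂ)‖) ∧
      HeckeSeparated (1 / (2 ^ 39 * R ^ 2 * (k : ℝ) ^ 28)) w := by
  obtain ⟨w, h⟩ :=
    Pool.Agent.Helper65.SN.many ⟨fun z hz => (hU.2.1 z hz).1, hU.2.2.2.2.2⟩ hR hz hz' hk
  exact ⟨w, fun i => (h i).1, fun i => (h i).2.1, fun i => (h i).2.2⟩

end Pool.Agent.Results.MP_8fded1_nt.SeparatedLargeValues
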