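import Mathlib
import Pool.Agent.Helper10K1.SN.Strips
import Pool.Agent.Results.MP_8fded1_nt.CuspControlsCompactSets

set_option autoImplicit false

/-!
# MP_8fded1_nt: a thin set of strips high in the cusp controls all compact sets
-/

namespace Pool.Agent.Results.MP_8fded1_nt.ThinCuspStrips

open MeasureTheory
open Pool.Agent.Results.MP_8fded1_nt.EllipticPointIsHarmless (IsHeckeMaass SupNormBound)
open Pool.Agent.Results.MP_8fded1_nt.CuspControlsCompactSets (Box isCompact_box box_pos pointwise)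
open Pool.Agent.Helper10K1.SN (Strips toStrips window)

lemma vol_aux (p : ℕ) (hp : 1 < p) (ξ : ℝ) (n : ℕ) (f : AddCircle (1 : ℝ) → AddCircle (1 : ℝ))
    (hf : MeasurePreserving f volume volume) (hfn : ∀ x : ℝ, f (x : AddCircle (1 : ℝ)) = ((n * x : ℝ) : AddCircle (1 : ℝ))) :
    volume {x : ℝ | |x| ≤ 1 / 2 ∧ ∃ m : ℤ, |n * x - ξ - m| ≤ 1 / (2 * p)} ≤ ENNReal.ofReal (1 / p) := by
  have hp0 : (0 : ℝ) < p := by exact_mod_cast (by omega : 0 < p)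
  set A : Set (AddCircle (1 : ℝ)) := Metric.closedBall (ξ : AddCircle (1 : ℝ)) (1 / (2 * p)) with hA
  have hAm : MeasurableSet A := Metric.isClosed_closedBall.measurableSet
  have hvA : volume A ≤ ENNReal.ofReal (1 / p) := by
    rw [hA, AddCircle.volume_closedBall]
    apply ENNReal.ofReal_le_ofReal
    refine (min_le_right _ _).trans (le_of_eq ?_)
    field_simp
  have hmk := AddCircle.measurePreserving_mk (1 : ℝ) (-(1 / 2))
  have hcomp := hf.comp hmk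
  have h1 := hcomp.measure_preimage hAm.nullMeasurableSet
  have hsub : {x : ℝ | |x| ≤ 1 / 2 ∧ ∃ m : ℤ, |n * x - ξ - m| ≤ 1 / (2 * p)} ⊆
      {-(1 / 2)} ∪ (((f ∘ ((↑) : ℝ → AddCircle (1 : ℝ))) ⁻¹' A) ∩ Set.Ioc (-(1 / 2)) (-(1 / 2) + 1)) := by
    rintro x ⟨hx, m, hm⟩
    rcases eq_or_ne x (-(1 / 2)) with h | h
    · left; exact h
    · right
      obtain ⟨h2, h3⟩ := abs_le.1 hx
      refine ⟨?_, lt_of_le_of_ne h2 (Ne.symm h), by linarith⟩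
      show f (x : AddCircle (1 : ℝ)) ∈ A
      rw [hfn, hA, Metric.mem_closedBall, dist_eq_norm]
      have e : ((n * x : ℝ) : AddCircle (1 : ℝ)) - (ξ : AddCircle (1 : ℝ)) = ((n * x - ξ - m : ℝ) : AddCircle (1 : ℝ)) := by
        rw [AddCircle.coe_sub, AddCircle.coe_sub]
        have : ((m : ℝ) : AddCircle (1 : ℝ)) = 0 := by
          rw [AddCircle.coe_eq_zero_iff]
          exact ⟨m, by simp⟩
        rw [this, sub_zero]
      rw [e]
      refine le_trans ?_ hm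
      exact QuotientAddGroup.norm_mk_le_norm
  calc volume {x : ℝ | |x| ≤ 1 / 2 ∧ ∃ m : ℤ, |n * x - ξ - m| ≤ 1 / (2 * p)}
      ≤ volume ({-(1 / 2)} ∪ (((f ∘ ((↑) : ℝ → AddCircle (1 : ℝ))) ⁻¹' A) ∩ Set.Ioc (-(1 / 2)) (-(1 / 2) + 1)) : Set ℝ) :=
        measure_mono hsub
    _ ≤ volume ({-(1 / 2)} : Set ℝ) + volume (((f ∘ ((↑) : ℝ → AddCircle (1 : ℝ))) ⁻¹' A) ∩ Set.Ioc (-(1 / 2)) (-(1 / 2) + 1)) :=
        measure_union_le _ _
    _ = volume (((f ∘ ((↑) : ℝ → AddCircle (1 : ℝ))) ⁻¹' A) ∩ Set.Ioc (-(1 / 2)) (-(1 / 2) + 1)) := by simp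
    _ ≤ (volume.restrict (Set.Ioc (-(1 / 2)) (-(1 / 2) + 1))) ((f ∘ ((↑) : ℝ → AddCircle (1 : ℝ))) ⁻¹' A) :=
        Measure.le_restrict_apply _ _
    _ = volume A := h1
    _ ≤ _ := hvA

lemma slice_low (p : ℕ) (hp : 1 < p) (ξ : ℝ) :
    volume {x : ℝ | |x| ≤ 1 / 2 ∧ ∃ m : ℤ, |p * x - ξ - m| ≤ 1 / (2 * p)} ≤ ENNReal.ofReal (1 / p) := by
  refine vol_aux p hp ξ p (fun y => p • y) (AddCircle.ergodic_nsmul hp).toMeasurePreserving fun x => ?_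
  rw [← nsmul_eq_mul, AddCircle.coe_nsmul]

lemma slice_high (p : ℕ) (hp : 1 < p) (ξ : ℝ) :
    volume {x : ℝ | |x| ≤ 1 / 2 ∧ ∃ m : ℤ, |x - ξ - m| ≤ 1 / (2 * p)} ≤ ENNReal.ofReal (1 / p) := by
  have := vol_aux p hp ξ 1 id (MeasurePreserving.id _) fun x => by simp
  simpa using this

lemma slice {p : ℕ} (hp : 5 ≤ p) {Y : ℝ} (hY : 0 < Y) (ξ y : ℝ) :
    volume {x : ℝ | (x : ℂ) + (y : ℂ) * Complex.I ∈ Strips p Y ξ} ≤ ENNReal.ofReal (1 / p) := by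
  have hp5 : (5 : ℝ) ≤ p := by exact_mod_cast hp
  rcases le_or_gt y (4 * Y) with h | h
  · refine le_trans (measure_mono ?_) (slice_low p (by omega) ξ)
    rintro x (⟨h1, -, -, h2⟩ | ⟨-, h1, -, -⟩)
    · simp only [Complex.add_re, Complex.ofReal_re, Complex.mul_re, Complex.I_re, mul_zero, Complex.ofReal_im,
        Complex.I_im, zero_mul, sub_zero, add_zero] at h1 h2
      exact ⟨h1, h2⟩
    · exfalso
      simp at h1
      nlinarith
  · refine le_trans (measure_mono ?_) (slice_high p (by omega) ξ)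
    rintro x (⟨-, -, h1, -⟩ | ⟨h1, -, -, h2⟩)
    · exfalso
      simp at h1
      linarith
    · simp only [Complex.add_re, Complex.ofReal_re, Complex.mul_re, Complex.I_re, mul_zero, Complex.ofReal_im,
        Complex.I_im, zero_mul, sub_zero, add_zero] at h1 h2
      exact ⟨h1, h2⟩

lemma isClosed_int (a ξ c : ℝ) : IsClosed {w : ℂ | ∃ m : ℤ, |a * w.re - ξ - m| ≤ c} := by
  have h : IsClosed {t : ℝ | ∃ m : ℤ, |t - m| ≤ c} := by
    have e : {t : ℝ | ∃ m : ℤ, |t - m| ≤ c} = {t : ℝ | ‖(t : AddCircle (1 : ℝ))‖ ≤ c} := by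
      ext t
      constructor
      · rintro ⟨m, hm⟩
        show ‖(t : AddCircle (1 : ℝ))‖ ≤ c
        have e : (t : AddCircle (1 : ℝ)) = ((t - m : ℝ) : AddCircle (1 : ℝ)) := by
          rw [AddCircle.coe_sub]
          have : ((m : ℝ) : AddCircle (1 : ℝ)) = 0 := by
            rw [AddCircle.coe_eq_zero_iff]
            exact ⟨m, by simp⟩
          rw [this, sub_zero]
        rw [e]
        exact le_trans QuotientAddGroup.norm_mk_le_norm hm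
      · intro ht
        have ht' : ‖(t : AddCircle (1 : ℝ))‖ ≤ c := ht
        rw [AddCircle.norm_eq] at ht'
        exact ⟨round t, by simpa using ht'⟩
    rw [e]
    exact isClosed_le (continuous_norm.comp (AddCircle.continuous_mk' (1 : ℝ))) continuous_const
  exact h.preimage (f := fun w : ℂ => a * w.re - ξ) (by fun_prop)

lemma isCompact_strips (p : ℕ) (Y ξ : ℝ) : IsCompact (Strips p Y ξ) := by
  have e : Strips p Y ξ = (Box Y (4 * Y) ∩ {w : ℂ | ∃ m : ℤ, |p * w.re - ξ - m| ≤ 1 / (2 * p)}) ∪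
      (Box (p * Y) (4 * (p * Y)) ∩ {w : ℂ | ∃ m : ℤ, |1 * w.re - ξ - m| ≤ 1 / (2 * p)}) := by
    ext w
    simp only [Strips, Box, one_mul, Set.mem_union, Set.mem_inter_iff, Set.mem_ofPred_eq]
    tauto
  rw [e]
  exact ((isCompact_box _ _).inter_right (isClosed_int _ _ _)).union
    ((isCompact_box _ _).inter_right (isClosed_int _ _ _))

lemma strips_im {p : ℕ} (hp : 0 < p) {Y : ℝ} (hY : 0 < Y) (ξ : ℝ) :
    ∀ w ∈ Strips p Y ξ, |w.re| ≤ 1 / 2 ∧ Y ≤ w.im ∧ w.im ≤ 4 * (p * Y) := by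
  have hp1 : (1 : ℝ) ≤ p := by exact_mod_cast hp
  rintro w (⟨h0, h1, h2, -⟩ | ⟨h0, h1, h2, -⟩)
  · exact ⟨h0, h1, by nlinarith⟩
  · exact ⟨h0, by nlinarith, h2⟩

theorem control {p : ℕ} (hp : p.Prime) {Y : ℝ} (hY : 0 < Y) (ξ : ℝ) (Ω : Set ℂ) (hΩ : IsCompact Ω)
    (hΩ' : Ω ⊆ {z : ℂ | 0 < z.im}) :
    ∃ C : ℝ, 0 < C ∧ ∀ (U : ℂ → ℂ) (T : ℝ), IsHeckeMaass U T → ∀ z ∈ Ω,
      ∃ w ∈ Strips p Y ξ, ‖U z‖ ≤ C * ‖U w‖ := by
  have hp0 : (0 : ℝ) < p := by exact_mod_cast hp.pos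
  have hH : 0 < (p : ℝ) * (p * Y) := by positivity
  obtain ⟨Y₂, h⟩ := pointwise ((p : ℝ) * (p * Y))
  obtain ⟨C, hC, h⟩ := h Ω hΩ hΩ'
  obtain ⟨n, hn⟩ := pow_unbounded_of_one_lt (Y₂ / (4 * ((p : ℝ) * (p * Y)))) (by norm_num : (1 : ℝ) < 2)
  rw [div_lt_iff₀ (by positivity)] at hn
  have hK := Pool.Agent.N889.SN.KK_nonneg
  have hK2 := hK 2
  have hKp := hK p
  refine ⟨C * ((Pool.Agent.N889.SN.KK 2 + 2) ^ n * (Pool.Agent.N889.SN.KK p + p)), by positivity,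
    fun U T hU z hz => ?_⟩
  have hP := Pool.Agent.N889.SN.isPer hU
  obtain ⟨w, ⟨-, hw1, hw2⟩, hw⟩ := h U T hU z hz
  obtain ⟨v, hv1, hv2, hv⟩ := window hK hP _ hH n w hw1 (by nlinarith)
  obtain ⟨u, hu, huv⟩ := toStrips hK hP hp Y ξ hY v hv1 hv2
  refine ⟨u, hu, ?_⟩
  calc ‖U z‖ ≤ C * ‖U w‖ := hw
    _ ≤ C * ((Pool.Agent.N889.SN.KK 2 + 2) ^ n * ‖U v‖) := by gcongr
    _ ≤ C * ((Pool.Agent.N889.SN.KK 2 + 2) ^ n * ((Pool.Agent.N889.SN.KK p + p) * ‖U u‖)) := by gcongr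
    _ = _ := by ring

/-- **Main result.** Let `p ≥ 5` be a prime, `Y > 0` and `ξ` real. `Strips p Y ξ` is the union of the
part `|Re w| ≤ 1/2` of the strips `|p Re w - ξ - m| ≤ 1/(2p)` (`m` an integer) at the heights
`Y ≤ Im w ≤ 4Y`, and of the strips `|Re w - ξ - m| ≤ 1/(2p)` at the heights `pY ≤ Im w ≤ 4pY`. Then
(1) it is compact and lies in `|Re w| ≤ 1/2`, `Y ≤ Im w ≤ 4pY`;
(2) every horizontal line meets it in a set of length at most `1/p`;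
(3) for every compact subset `Ω` of the upper half-plane there is `C` such that for every Hecke-Maass
cusp form `U` and every `z` in `Ω` there is `w` in the strips with `|U z| ≤ C |U w|`;
(4) for every `s`, the sup-norm bound with exponent `s` holds on all compact subsets of the upper
half-plane if and only if it holds on the strips. -/
theorem result (p : ℕ) (hp : p.Prime) (hp5 : 5 ≤ p) (Y : ℝ) (hY : 0 < Y) (ξ : ℝ) :
    IsCompact (Strips p Y ξ) ∧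
    (∀ w ∈ Strips p Y ξ, |w.re| ≤ 1 / 2 ∧ Y ≤ w.im ∧ w.im ≤ 4 * (p * Y)) ∧
    (∀ y : ℝ, volume {x : ℝ | (x : ℂ) + (y : ℂ) * Complex.I ∈ Strips p Y ξ} ≤ ENNReal.ofReal (1 / p)) ∧
    (∀ Ω : Set ℂ, IsCompact Ω → Ω ⊆ {z : ℂ | 0 < z.im} →
      ∃ C : ℝ, 0 < C ∧ ∀ (U : ℂ → ℂ) (T : ℝ), IsHeckeMaass U T → ∀ z ∈ Ω,
        ∃ w ∈ Strips p Y ξ, ‖U z‖ ≤ C * ‖U w‖) ∧
    ∀ s : ℝ, (∀ Ω : Set ℂ, IsCompact Ω → Ω ⊆ {z : ℂ | 0 < z.im} → SupNormBound Ω s) ↔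
      SupNormBound (Strips p Y ξ) s := by
  have him := strips_im hp.pos hY ξ
  refine ⟨isCompact_strips p Y ξ, him, slice hp5 hY ξ, fun Ω hΩ hΩ' => control hp hY ξ Ω hΩ hΩ',
    fun s => ⟨fun h => h _ (isCompact_strips p Y ξ) fun w hw => lt_of_lt_of_le hY (him w hw).2.1, fun h Ω hΩ hΩ' => ?_⟩⟩
  obtain ⟨C, hC, h2⟩ := control hp hY ξ Ω hΩ hΩ'
  obtain ⟨B, hB⟩ := h
  refine ⟨C * B, fun U T hT hU z hz => ?_⟩
  obtain ⟨w, hw, h3⟩ := h2 U T hU z hz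
  calc ‖U z‖ ≤ C * ‖U w‖ := h3
    _ ≤ C * (B * T ^ s) := by
      gcongr
      exact hB U T hT hU w hw
    _ = C * B * T ^ s := by ring

end Pool.Agent.Results.MP_8fded1_nt.ThinCuspStrips
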